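import Pool.Agent.Helper26.BSU.Ultra

/-! Finitely generated domains of characteristic zero have points over number fields, over
infinitely many prime fields and over all algebraically closed fields of large characteristic. -/

set_option autoImplicit false

open Polynomial

namespace Pool.Agent.Helper26.BSU

/-- extension of a homomorphism from `B` to the ring generated by some fractions `s = b / N` -/
theorem exists_hom_closure {κ F : Type} [Field κ] [Field F] (B : Subring κ) (φ : B →+* F) (N : ℕ)
    (hN : (N : κ) ≠ 0) (hNF : (N : F) ≠ 0) (S : Set κ) (hS : ∀ s ∈ S, (N : κ) * s ∈ B) :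
    Nonempty (Subring.closure S →+* F) := by
  let x : B := (N : B)
  have hx : IsUnit (B.subtype x) := by
    have : B.subtype x = (N : κ) := by simp [x]
    rw [this]
    exact hN.isUnit
  have hxF : IsUnit (φ x) := by
    have : φ x = (N : F) := by simp [x]
    rw [this]
    exact hNF.isUnit
  let j : Localization.Away x →+* κ := IsLocalization.Away.lift x hx
  let ψ : Localization.Away x →+* F := IsLocalization.Away.lift x hxF
  have hj : Function.Injective j := by
    rw [injective_iff_map_eq_zero]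
    intro a ha
    obtain ⟨n, b, hb⟩ := IsLocalization.Away.surj x a
    have h1 : j (algebraMap B (Localization.Away x) b) = B.subtype b :=
      IsLocalization.Away.lift_eq x hx b
    rw [← hb, map_mul, ha, zero_mul] at h1
    have h2 : b = 0 := Subtype.ext h1.symm
    rw [h2, map_zero] at hb
    exact ((IsLocalization.Away.algebraMap_isUnit x).pow n).mul_left_eq_zero.1 hb
  have hle : Subring.closure S ≤ j.range := by
    rw [Subring.closure_le]
    intro s hs
    let b : B := ⟨(N : κ) * s, hS s hs⟩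
    refine ⟨algebraMap B (Localization.Away x) b * IsLocalization.Away.invSelf x, ?_⟩
    have h1 : j (algebraMap B (Localization.Away x) b) = (N : κ) * s :=
      IsLocalization.Away.lift_eq x hx b
    have h2 : j (algebraMap B (Localization.Away x) x) * j (IsLocalization.Away.invSelf x) = 1 := by
      rw [← map_mul, IsLocalization.Away.mul_invSelf, map_one]
    have h3 : j (algebraMap B (Localization.Away x) x) = (N : κ) := by
      rw [IsLocalization.Away.lift_eq x hx x]
      simp [x]
    rw [h3] at h2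
    rw [map_mul, h1, mul_right_comm, h2, one_mul]
  let e : Localization.Away x ≃+* j.range := RingEquiv.ofBijective j.rangeRestrict
    ⟨fun a b hab => hj (congrArg Subtype.val hab), j.rangeRestrict_surjective⟩
  exact ⟨(ψ.comp (e.symm : j.range →+* Localization.Away x)).comp (Subring.inclusion hle)⟩

/-- clearing denominators -/
theorem exists_mul_mem {κ : Type} [Field κ] [CharZero κ] (β : κ) (x : κ)
    (hx : x ∈ Algebra.adjoin ℚ ({β} : Set κ)) :
    ∃ N : ℕ, 0 < N ∧ (N : κ) * x ∈ Algebra.adjoin ℤ ({β} : Set κ) := by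
  induction hx using Algebra.adjoin_induction with
  | mem x hx =>
    refine ⟨1, one_pos, ?_⟩
    rw [Nat.cast_one, one_mul]
    exact Algebra.subset_adjoin hx
  | algebraMap q =>
    refine ⟨q.den, q.pos, ?_⟩
    have : (q.den : κ) * algebraMap ℚ κ q = ((q.num : ℤ) : κ) := by
      rw [eq_ratCast]
      have h := Rat.den_mul_eq_num q
      exact_mod_cast congrArg (fun t : ℚ => (t : κ)) h
    rw [this]
    exact Subalgebra.intCast_mem _ _
  | add x y _ _ hx hy =>
    obtain ⟨N, hN, h1⟩ := hx
    obtain ⟨M, hM, h2⟩ := hy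
    refine ⟨N * M, Nat.mul_pos hN hM, ?_⟩
    have : ((N * M : ℕ) : κ) * (x + y) = (M : κ) * ((N : κ) * x) + (N : κ) * ((M : κ) * y) := by
      push_cast; ring
    rw [this]
    exact Subalgebra.add_mem _ (Subalgebra.mul_mem _ (Subalgebra.natCast_mem _ _) h1)
      (Subalgebra.mul_mem _ (Subalgebra.natCast_mem _ _) h2)
  | mul x y _ _ hx hy =>
    obtain ⟨N, hN, h1⟩ := hx
    obtain ⟨M, hM, h2⟩ := hy
    refine ⟨N * M, Nat.mul_pos hN hM, ?_⟩
    have : ((N * M : ℕ) : κ) * (x * y) = ((N : κ) * x) * ((M : κ) * y) := by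
      push_cast; ring
    rw [this]
    exact Subalgebra.mul_mem _ h1 h2

theorem exists_common {κ : Type} [Field κ] (B : Subring κ) (S : Finset κ)
    (h : ∀ s ∈ S, ∃ N : ℕ, 0 < N ∧ (N : κ) * s ∈ B) :
    ∃ N : ℕ, 0 < N ∧ ∀ s ∈ S, (N : κ) * s ∈ B := by
  classical
  induction S using Finset.induction_on with
  | empty => exact ⟨1, one_pos, fun s hs => absurd hs (Finset.notMem_empty s)⟩
  | insert a S ha ih =>
    obtain ⟨N, hN, h1⟩ := ih fun s hs => h s (Finset.mem_insert_of_mem hs)
    obtain ⟨M, hM, h2⟩ := h a (Finset.mem_insert_self a S)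
    refine ⟨N * M, Nat.mul_pos hN hM, fun s hs => ?_⟩
    rcases Finset.mem_insert.1 hs with rfl | hs
    · have : ((N * M : ℕ) : κ) * s = (N : κ) * ((M : κ) * s) := by push_cast; ring
      rw [this]
      exact B.mul_mem (natCast_mem B N) h2
    · have : ((N * M : ℕ) : κ) * s = (M : κ) * ((N : κ) * s) := by push_cast; ring
      rw [this]
      exact B.mul_mem (natCast_mem B M) (h1 s hs)

/-- Points of finitely generated subrings of number fields. -/
theorem exists_poly (κ : Type) [Field κ] [NumberField κ] (S : Finset κ) :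
    ∃ (f : ℤ[X]) (N : ℕ), f.Monic ∧ f.natDegree ≠ 0 ∧ 0 < N ∧
      ∀ (F : Type) [Field F], (N : F) ≠ 0 → ∀ a : F, f.eval₂ (Int.castRingHom F) a = 0 →
        Nonempty (Subring.closure (S : Set κ) →+* F) := by
  obtain ⟨α, hα⟩ := Field.exists_primitive_element ℚ κ
  obtain ⟨y, hy, hint'⟩ := exists_integral_multiples ℤ ℚ ({α} : Finset κ)
  have hint : IsIntegral ℤ (y • α) := hint' α (Finset.mem_singleton_self α)
  set β : κ := y • α with hβ
  have hyκ : (y : κ) ≠ 0 := by exact_mod_cast hy
  have hβα : α = (algebraMap ℚ κ (y : ℚ)⁻¹) * β := by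
    rw [hβ, zsmul_eq_mul, map_inv₀, map_intCast, inv_mul_cancel_left₀ hyκ]
  have htop : ∀ x : κ, x ∈ Algebra.adjoin ℚ ({β} : Set κ) := by
    intro x
    have h1 : x ∈ IntermediateField.adjoin ℚ ({α} : Set κ) := by rw [hα]; trivial
    have h2 : x ∈ (IntermediateField.adjoin ℚ ({α} : Set κ)).toSubalgebra := h1
    rw [IntermediateField.adjoin_simple_toSubalgebra_of_isAlgebraic
      (IsAlgebraic.of_finite ℚ α)] at h2
    refine (Algebra.adjoin_le ?_ : Algebra.adjoin ℚ ({α} : Set κ) ≤ _) h2
    rw [Set.singleton_subset_iff, SetLike.mem_coe, hβα]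
    exact Subalgebra.mul_mem _ (Subalgebra.algebraMap_mem _ _)
      (Algebra.subset_adjoin (Set.mem_singleton β))
  obtain ⟨N, hN, hNS⟩ := exists_common (Algebra.adjoin ℤ ({β} : Set κ)).toSubring S
    fun s _ => exists_mul_mem β s (htop s)
  refine ⟨minpoly ℤ β, N, minpoly.monic hint, (minpoly.natDegree_pos hint).ne', hN, ?_⟩
  intro F _ hNF a ha
  let φ : (Algebra.adjoin ℤ ({β} : Set κ)).toSubring →+* F :=
    (AdjoinRoot.lift (Int.castRingHom F) a ha).comp
      ((minpoly.equivAdjoin hint).symm : Algebra.adjoin ℤ ({β} : Set κ) →+* _)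
  exact exists_hom_closure _ φ N (by exact_mod_cast hN.ne') hNF S hNS

/-- Points over number fields. -/
theorem exists_numberField (L : Type) [Field L] [CharZero L] (S : Finset L) :
    ∃ (κ : Type) (_ : Field κ) (_ : NumberField κ) (S' : Finset κ),
      Nonempty (Subring.closure (S : Set L) →+* Subring.closure (S' : Set κ)) := by
  classical
  let A := Algebra.adjoin ℚ (S : Set L)
  have hA : Algebra.FiniteType ℚ A := (Subalgebra.fg_iff_finiteType A).1 (Subalgebra.fg_adjoin_finset S)
  obtain ⟨M, hM⟩ := Ideal.exists_maximal A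
  let κ := A ⧸ M
  let _ : Field κ := Ideal.Quotient.field M
  have hft : Algebra.FiniteType ℚ κ := inferInstance
  have hfin : Module.Finite ℚ κ := finite_of_finite_type_of_isJacobsonRing ℚ κ
  have hch : CharZero κ := algebraRat.charZero κ
  have hnf : NumberField κ := by
    refine { to_charZero := hch, to_finiteDimensional := ?_ }
    convert hfin
    exact (subsingleton_rat_module κ).elim _ _
  have hle : Subring.closure (S : Set L) ≤ A.toSubring := by
    rw [Subring.closure_le]
    exact Algebra.subset_adjoin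
  let g : Subring.closure (S : Set L) →+* κ :=
    (Ideal.Quotient.mk M).comp (Subring.inclusion hle)
  let S' : Finset κ := S.attach.image fun s : {x // x ∈ S} => g ⟨s.1, Subring.subset_closure s.2⟩
  refine ⟨κ, inferInstance, hnf, S', ⟨g.codRestrict (Subring.closure (S' : Set κ)) ?_⟩⟩
  rintro ⟨x, hx⟩
  induction hx using Subring.closure_induction with
  | mem x hx =>
    refine Subring.subset_closure ?_
    rw [Finset.mem_coe]
    exact Finset.mem_image.2 ⟨⟨x, hx⟩, Finset.mem_attach _ _, rfl⟩
  | zero => 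
    have : g ⟨0, Subring.zero_mem _⟩ = 0 := map_zero g
    rw [this]
    exact Subring.zero_mem _
  | one => 
    have : g ⟨1, Subring.one_mem _⟩ = 1 := map_one g
    rw [this]
    exact Subring.one_mem _
  | add x y hx hy h1 h2 =>
    have : g ⟨x + y, Subring.add_mem _ hx hy⟩ = g ⟨x, hx⟩ + g ⟨y, hy⟩ := map_add g ⟨x, hx⟩ ⟨y, hy⟩
    rw [this]
    exact Subring.add_mem _ h1 h2
  | neg x hx h1 =>
    have : g ⟨-x, Subring.neg_mem _ hx⟩ = -g ⟨x, hx⟩ := map_neg g ⟨x, hx⟩
    rw [this]
    exact Subring.neg_mem _ h1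
  | mul x y hx hy h1 h2 =>
    have : g ⟨x * y, Subring.mul_mem _ hx hy⟩ = g ⟨x, hx⟩ * g ⟨y, hy⟩ := map_mul g ⟨x, hx⟩ ⟨y, hy⟩
    rw [this]
    exact Subring.mul_mem _ h1 h2

/-- Points of finitely generated domains of characteristic zero. -/
theorem exists_poly' (L : Type) [Field L] [CharZero L] (S : Finset L) :
    ∃ (f : ℤ[X]) (N : ℕ), f.Monic ∧ f.natDegree ≠ 0 ∧ 0 < N ∧
      ∀ (F : Type) [Field F], (N : F) ≠ 0 → ∀ a : F, f.eval₂ (Int.castRingHom F) a = 0 →
        Nonempty (Subring.closure (S : Set L) →+* F) := by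
  obtain ⟨κ, _, _, S', ⟨g⟩⟩ := exists_numberField L S
  obtain ⟨f, N, hf, hd, hN, h⟩ := exists_poly κ S'
  refine ⟨f, N, hf, hd, hN, fun F _ hNF a ha => ?_⟩
  obtain ⟨φ⟩ := h F hNF a ha
  exact ⟨φ.comp g⟩

/-- A nonconstant integral polynomial has roots modulo infinitely many primes. -/
theorem exists_prime_root (f : ℤ[X]) (hd : f.natDegree ≠ 0) (M : ℕ) :
    ∃ p : ℕ, p.Prime ∧ M < p ∧ ∃ a : ℤ, (p : ℤ) ∣ f.eval a := by
  by_cases hc : f.eval 0 = 0
  · obtain ⟨p, hp, hpp⟩ := Nat.exists_infinite_primes (M + 1)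
    exact ⟨p, hpp, by omega, 0, by rw [hc]; exact dvd_zero _⟩
  · set c : ℤ := f.eval 0 with hcdef
    set t : ℤ := c * (M.factorial : ℤ) with ht
    have ht0 : t ≠ 0 := mul_ne_zero hc (by exact_mod_cast M.factorial_ne_zero)
    -- the values `f (t * y)` are `c` modulo `t`, and not always `c` or `-c`
    have hfin : ∀ v : ℤ, {x : ℤ | f.eval x = v}.Finite := by
      intro v
      have h1 : f - C v ≠ 0 := by
        intro h
        apply hd
        rw [sub_eq_zero.1 h, natDegree_C]
      refine ((f - C v).roots.toFinset.finite_toSet).subset fun x hx => ?_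
      rw [Finset.mem_coe, Multiset.mem_toFinset, mem_roots h1, IsRoot, eval_sub, eval_C]
      exact sub_eq_zero.2 hx
    have hinf : (Set.range fun y : ℕ => t * (t * (y : ℤ))).Infinite :=
      Set.infinite_range_of_injective fun a b hab => by
        have := mul_left_cancel₀ ht0 (mul_left_cancel₀ ht0 hab)
        exact_mod_cast this
    obtain ⟨x, ⟨y, rfl⟩, hx⟩ := (hinf.sdiff ((hfin c).union (hfin (-c)))).nonempty
    simp only [Set.mem_union, Set.mem_ofPred_eq, not_or] at hx
    -- `f x = c * (1 + M! * q)`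
    have hdvd : t ∣ f.eval (t * (t * (y : ℤ))) - c := by
      have h1 := Polynomial.sub_dvd_eval_sub (t * (t * (y : ℤ))) 0 f
      rw [sub_zero] at h1
      exact (Dvd.intro _ rfl).trans h1
    obtain ⟨q, hq⟩ := hdvd
    have hval : f.eval (t * (t * (y : ℤ))) = c * (1 + (M.factorial : ℤ) * q) := by
      have : f.eval (t * (t * (y : ℤ))) = c + t * q := by rw [← hq]; ring
      rw [this, ht]; ring
    have hne : (1 + (M.factorial : ℤ) * q).natAbs ≠ 1 := by
      intro h
      rcases Int.natAbs_eq_iff.1 h with h | h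
      · apply hx.1
        rw [hval, h]; simp
      · apply hx.2
        rw [hval, h]; simp
    obtain ⟨p, hp, hpd⟩ := Nat.exists_prime_and_dvd hne
    have hpd' : (p : ℤ) ∣ 1 + (M.factorial : ℤ) * q := Int.natCast_dvd.2 hpd
    refine ⟨p, hp, ?_, t * (t * (y : ℤ)), ?_⟩
    · by_contra hle
      push Not at hle
      have h1 : (p : ℤ) ∣ (M.factorial : ℤ) := by
        exact_mod_cast (Nat.dvd_factorial hp.pos hle)
      have h2 : (p : ℤ) ∣ 1 := by
        have := dvd_sub hpd' (h1.mul_right q)
        simpa using this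
      exact hp.one_lt.ne' (by exact_mod_cast Int.eq_one_of_dvd_one (by positivity) h2)
    · rw [hval]
      exact hpd'.mul_left c

/-- points over prime fields -/
theorem exists_prime_point (L : Type) [Field L] [CharZero L] (S : Finset L) (m : ℕ) :
    ∃ (p : ℕ) (_ : Fact p.Prime), m ≤ p ∧
      Nonempty (Subring.closure (S : Set L) →+* ZMod p) := by
  obtain ⟨f, N, hf, hd, hN, h⟩ := exists_poly' L S
  obtain ⟨p, hp, hpM, a, ha⟩ := exists_prime_root f hd (N + m)
  have hfact : Fact p.Prime := ⟨hp⟩
  refine ⟨p, hfact, by omega, h (ZMod p) ?_ (a : ZMod p) ?_⟩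
  · rw [Ne, ZMod.natCast_eq_zero_iff]
    intro hdvd
    have := Nat.le_of_dvd hN hdvd
    omega
  · have h1 : f.eval₂ (Int.castRingHom (ZMod p)) (Int.castRingHom (ZMod p) a) =
        Int.castRingHom (ZMod p) (f.eval a) := Polynomial.eval₂_at_apply _ a
    have h2 : (Int.castRingHom (ZMod p)) (f.eval a) = 0 := by
      rw [eq_intCast, ZMod.intCast_zmod_eq_zero_iff_dvd] 
      exact ha
    rw [h2] at h1
    simpa using h1

/-- points over algebraically closed fields of large characteristic -/
theorem exists_closed_point (L : Type) [Field L] [CharZero L] (S : Finset L) :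
    ∃ m : ℕ, ∀ (F : Type) [Field F] [IsAlgClosed F], (ringChar F = 0 ∨ m ≤ ringChar F) →
      Nonempty (Subring.closure (S : Set L) →+* F) := by
  obtain ⟨f, N, hf, hd, hN, h⟩ := exists_poly' L S
  refine ⟨N + 1, fun F _ _ hF => ?_⟩
  rw [natCast_ne_zero_iff] at hF
  have hdeg : (f.map (Int.castRingHom F)).degree ≠ 0 := by
    rw [hf.degree_map, degree_eq_natDegree hf.ne_zero]
    exact_mod_cast hd
  obtain ⟨a, ha⟩ := IsAlgClosed.exists_root _ hdeg
  refine h F (hF N hN (Nat.lt_succ_self N)) a ?_
  rwa [IsRoot, eval_map] at ha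

end Pool.Agent.Helper26.BSU
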