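import Pool.Agent.Helper26.BSU.Few
import Pool.Agent.Helper63.PPF.Small

/-! The lists of equivalent conditions. -/

set_option autoImplicit false

open AlgebraicGeometry CategoryTheory Pool.Agent.Helper19.BS Pool.Agent.Helper63.PPF

namespace Pool.Agent.Helper26.BSU

/-- The conditions which are equivalent to the vanishing `V` on the class `P`: `V` for all smooth
varieties over all fields of characteristic zero; for all `w > 0`: `H^k(Spec ∏ 𝔽_p, ℚ(w))` is zero;
it has dimension less than the continuum; uniform bounds over the fields `𝔽_p`. -/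
def classConditions (T : MotTheory) (C : CycleComplexes) (V : Scheme.{0} → Prop) (k : ℤ)
    (P : ∀ X : Scheme.{0}, (X ⟶ Sp ℂ) → Prop) : List Prop :=
  [ForClass P V, ForAll V, ∀ w > 0, RingVanish T PrimeProduct k w,
    ∀ w > 0, RingSmall T PrimeProduct k w, ∀ w > 0, C.UniformPrime k w]

/-- The conditions which are equivalent to the vanishing in degree `k` and weight `w > 0` for all
fields of characteristic zero. -/
def fieldConditions (T : MotTheory) (C : CycleComplexes) (k w : ℤ) : List Prop :=
  [FieldsVanish T k w, AllProducts T k w, RingVanish T PrimeProduct k w,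
    RingSmall T PrimeProduct k w, SomeClosedProduct T k w, SmallClosedProduct T k w,
    C.UniformAll k w, C.UniformPrime k w, C.UniformNumber k w, C.UniformClosed k w]

/-- A product of fields is small, or there are uniform bounds along a sequence of fields. -/
def SmallOrUniform (T : MotTheory) (C : CycleComplexes) (k w : ℤ) : Prop :=
  SmallProduct T k w ∨ C.UniformSomewhere k w

variable {T : MotTheory} {C : CycleComplexes} (hT : IsMotivic T) (hK : KTheoretic T)
  (hC : IsCycleTheory T C)

include hT hK hC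

theorem tfae_classConditions (P : ∀ X : Scheme.{0}, (X ⟶ Sp ℂ) → Prop) (hP : IsClass P) :
    (classConditions T C (BeilinsonSoule T) (-1) P).TFAE := by
  have h1 := Pool.Agent.Helper63.PPF.tfae_bs hT hK P hP
  have h2 := Pool.Agent.Helper26.BSU.tfae_bs hC hT P hP
  unfold classConditions
  tfae_have 1 ↔ 2 := h1.out 0 1
  tfae_have 1 ↔ 3 := h1.out 0 3
  tfae_have 1 ↔ 4 := h1.out 0 4
  tfae_have 1 ↔ 5 := h2.out 0 3
  tfae_finish

theorem tfae_classConditions_strong (P : ∀ X : Scheme.{0}, (X ⟶ Sp ℂ) → Prop) (hP : IsClass P) :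
    (classConditions T C (StrongBeilinsonSoule T) 0 P).TFAE := by
  have h1 := Pool.Agent.Helper63.PPF.tfae_strongBS hT hK P hP
  have h2 := Pool.Agent.Helper26.BSU.tfae_strongBS hC hT P hP
  unfold classConditions
  tfae_have 1 ↔ 2 := h1.out 0 1
  tfae_have 1 ↔ 3 := h1.out 0 3
  tfae_have 1 ↔ 4 := h1.out 0 4
  tfae_have 1 ↔ 5 := h2.out 0 3
  tfae_finish

theorem tfae_fieldConditions (k w : ℤ) (hw : 0 < w) : (fieldConditions T C k w).TFAE := by
  have h1 := tfae_product hT hK k w hw
  have h2 := tfae_uniform hC hT k w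
  unfold fieldConditions
  tfae_have 1 ↔ 2 := h1.out 0 1
  tfae_have 1 ↔ 3 := h1.out 0 2
  tfae_have 1 ↔ 4 := h1.out 0 3
  tfae_have 1 ↔ 5 := h1.out 0 4
  tfae_have 1 ↔ 6 := h1.out 0 5
  tfae_have 1 ↔ 7 := h2.out 0 1
  tfae_have 1 ↔ 8 := h2.out 0 2
  tfae_have 1 ↔ 9 := h2.out 0 3
  tfae_have 1 ↔ 10 := h2.out 0 4
  tfae_finish

theorem vanish_of_smallOrUniform (k w : ℤ) (h : SmallOrUniform T C (k + 1) (w + 1)) :
    FieldsVanish T k w := by
  rcases h with h | h
  · exact vanish_of_smallProduct hT hK k w h
  · exact vanish_of_uniformSomewhere hC hT k w h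

end Pool.Agent.Helper26.BSU
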