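import Pool.Agent.Helper19.BS.Defs

/-! Cycle complexes of bounded degree and uniform bounds. -/

set_option autoImplicit false

open Filter Pool.Agent.Helper19.BS

namespace Pool.Agent.Helper26.BSU

/-- The cycle complexes of (the spectra of) fields: `Z F w n` is Bloch's group `z^w(Spec F, n)` of
cycles of codimension `w` on the algebraic `n`-simplex over `F` which meet all faces properly, `d`
is the boundary and `deg` the degree of a cycle: the sum of the degrees of its components, counted
with the absolute values of their multiplicities. -/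
structure CycleComplexes where
  /-- the group of cycles -/
  Z : ∀ (F : Type) [Field F], ℤ → ℤ → Type
  [grp : ∀ (F : Type) [Field F] (w n : ℤ), AddCommGroup (Z F w n)]
  /-- the boundary -/
  d : ∀ (F : Type) [Field F] (w n : ℤ), Z F w (n + 1) →+ Z F w n
  /-- the degree -/
  deg : ∀ (F : Type) [Field F] (w n : ℤ), Z F w n → ℕ

attribute [instance] CycleComplexes.grp

/-- The number `2w - k - 1`; the group `H^k(Spec F, ℚ(w))` is the homology of the cycle complex in
degree `idx k w + 1 = 2w - k`. -/
def idx (k w : ℤ) : ℤ := 2 * w - k - 1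

/-- `K` is, through `π`, the ultraproduct of the fields `F i` with respect to the ultrafilter
`U`. -/
def IsUltraproduct (U : Ultrafilter ℕ) (F : ℕ → Type) [∀ i, Field (F i)] (K : Type) [Field K]
    (π : (∀ i, F i) →+* K) : Prop :=
  Function.Surjective π ∧ ∀ x, π x = 0 ↔ ∀ᶠ i in (U : Filter ℕ), x i = 0

namespace CycleComplexes

variable (C : CycleComplexes)

/-- The elementary properties of the degree. -/
structure DegreeLaws : Prop where
  zero : ∀ (F : Type) [Field F] (w n : ℤ), C.deg F w n 0 = 0
  neg : ∀ (F : Type) [Field F] (w n : ℤ) (x : C.Z F w n), C.deg F w n (-x) = C.deg F w n x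
  add : ∀ (F : Type) [Field F] (w n : ℤ) (x y : C.Z F w n),
    C.deg F w n (x + y) ≤ C.deg F w n x + C.deg F w n y
  /-- Bezout -/
  bdry : ∀ w n : ℤ, ∀ c : ℕ, ∃ c' : ℕ, ∀ (F : Type) [Field F] (x : C.Z F w (n + 1)),
    C.deg F w (n + 1) x ≤ c → C.deg F w n (C.d F w n x) ≤ c'

/-- A sequence of cycles of bounded degree. -/
def Bdd {F : ℕ → Type} [∀ i, Field (F i)] {w n : ℤ} (x : ∀ i, C.Z (F i) w n) : Prop :=
  ∃ c : ℕ, ∀ i, C.deg (F i) w n (x i) ≤ c

/-- Cycles over the ultraproduct `K` of the fields `F i` are the same as sequences of cycles of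
bounded degree over the `F i` modulo equality almost everywhere; `lim` sends a sequence of bounded
degree to its class. -/
structure IsUltralimit (U : Ultrafilter ℕ) (F : ℕ → Type) [∀ i, Field (F i)] (K : Type) [Field K]
    (w : ℤ) (lim : ∀ n : ℤ, (∀ i, C.Z (F i) w n) → C.Z K w n) : Prop where
  add : ∀ (n : ℤ) (x y : ∀ i, C.Z (F i) w n), C.Bdd x → C.Bdd y →
    lim n (fun i => x i + y i) = lim n x + lim n y
  zero_iff : ∀ (n : ℤ) (x : ∀ i, C.Z (F i) w n), C.Bdd x →
    (lim n x = 0 ↔ ∀ᶠ i in (U : Filter ℕ), x i = 0)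
  surj : ∀ (n : ℤ) (a : C.Z K w n), ∃ x, C.Bdd x ∧ lim n x = a
  bdry : ∀ (n : ℤ) (x : ∀ i, C.Z (F i) w (n + 1)), C.Bdd x →
    lim n (fun i => C.d (F i) w n (x i)) = C.d K w n (lim (n + 1) x)

/-- Cycles of bounded degree commute with ultraproducts. -/
def CommutesWithUltraproducts : Prop :=
  ∀ (U : Ultrafilter ℕ) (F : ℕ → Type) [∀ i, Field (F i)] (K : Type) [Field K]
    (π : (∀ i, F i) →+* K), IsUltraproduct U F K π → ∀ w : ℤ, ∃ lim, C.IsUltralimit U F K w lim

/-- The cycles in the complex which computes `H^k(Spec F, ℚ(w))`: a cycle in this sense is an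
element of `Z F w (idx k w + 1)`, `idx k w + 1 = 2w - k`, with boundary zero. -/
abbrev Closed (F : Type) [Field F] (k w : ℤ) : Type :=
  (C.d F w (idx k w)).ker

/-- the degree -/
def degree {F : Type} [Field F] {k w : ℤ} (z : C.Closed F k w) : ℕ :=
  C.deg F w (idx k w + 1) z

/-- `N • z` is the boundary of `b` -/
def Bounds {F : Type} [Field F] {k w : ℤ} (N : ℕ) (z : C.Closed F k w)
    (b : C.Z F w (idx k w + 1 + 1)) : Prop :=
  N • (z : C.Z F w (idx k w + 1)) = C.d F w (idx k w + 1) b

/-- The homology of the cycle complex, tensored with `ℚ`, is the motivic cohomology of the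
theory `T`: there is a class map whose image generates and whose kernel consists of the closed
elements with a nonzero multiple which is a boundary. -/
def Computes (T : MotTheory) : Prop :=
  ∀ (F : Type) [Field F] [CharZero F] (k w : ℤ), ∃ cls : C.Closed F k w →+ T.H (Sp F) k w,
    (∀ a, ∃ N : ℕ, N ≠ 0 ∧ ∃ z, cls z = N • a) ∧
    ∀ z, cls z = 0 ↔ ∃ N : ℕ, N ≠ 0 ∧ ∃ b, C.Bounds N z b

/-- Every closed element of degree at most `c` becomes, after multiplication by some positive
`N ≤ m`, the boundary of a chain of degree at most `m`. -/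
def BoundedBy (k w : ℤ) (c m : ℕ) (F : Type) [Field F] : Prop :=
  ∀ z : C.Closed F k w, C.degree z ≤ c → ∃ N : ℕ, 0 < N ∧ N ≤ m ∧ ∃ b, C.Bounds N z b ∧
    C.deg F w (idx k w + 1 + 1) b ≤ m

/-- uniform bounds over all fields of characteristic zero or large -/
def UniformAll (k w : ℤ) : Prop :=
  ∀ c : ℕ, ∃ m : ℕ, ∀ (F : Type) [Field F], (ringChar F = 0 ∨ m ≤ ringChar F) →
    C.BoundedBy k w c m F

/-- uniform bounds over almost all prime fields `𝔽_p` -/
def UniformPrime (k w : ℤ) : Prop :=
  ∀ c : ℕ, ∃ m : ℕ, ∀ (p : ℕ) [Fact p.Prime], m ≤ p → C.BoundedBy k w c m (ZMod p)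

/-- uniform bounds over all number fields -/
def UniformNumber (k w : ℤ) : Prop :=
  ∀ c : ℕ, ∃ m : ℕ, ∀ (F : Type) [Field F] [NumberField F], C.BoundedBy k w c m F

/-- uniform bounds along a sequence of fields -/
def UniformAlong (k w : ℤ) (F : ℕ → Type) [∀ i, Field (F i)] : Prop :=
  ∀ c : ℕ, ∃ m : ℕ, ∀ i, m ≤ i → C.BoundedBy k w c m (F i)

end CycleComplexes

/-- the characteristics of the fields `F i` are zero or tend to infinity -/
def CharLarge (F : ℕ → Type) [∀ i, Field (F i)] : Prop :=
  ∀ n : ℕ, ∃ i₀ : ℕ, ∀ i, i₀ ≤ i → ringChar (F i) = 0 ∨ n ≤ ringChar (F i)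

/-- uniform bounds along some sequence of algebraically closed fields whose characteristics are
zero or tend to infinity (for example a constant sequence, or the algebraic closures of `𝔽_p` for
the primes `p` in an infinite set) -/
def CycleComplexes.UniformClosed (C : CycleComplexes) (k w : ℤ) : Prop :=
  ∃ (F : ℕ → Type) (_ : ∀ i, Field (F i)), (∀ i, IsAlgClosed (F i)) ∧ CharLarge F ∧
    C.UniformAlong k w F

/-- uniform bounds along some sequence of fields whose characteristics are zero or tend to
infinity (for example over `ℚ`, or over `𝔽_p` for the primes `p` in an infinite set) -/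
def CycleComplexes.UniformSomewhere (C : CycleComplexes) (k w : ℤ) : Prop :=
  ∃ (F : ℕ → Type) (_ : ∀ i, Field (F i)), CharLarge F ∧ C.UniformAlong k w F

/-- The properties of cycle complexes that are used. -/
structure IsCycleTheory (T : MotTheory) (C : CycleComplexes) : Prop where
  degree : C.DegreeLaws
  computes : C.Computes T
  ultra : C.CommutesWithUltraproducts

end Pool.Agent.Helper26.BSU
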