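import Pool.Agent.Helper26.BSU.Main

/-! Boundedly many classes. -/

set_option autoImplicit false

open Filter AlgebraicGeometry CategoryTheory Polynomial Pool.Agent.Helper19.BS

namespace Pool.Agent.Helper26.BSU

/-- There are at most `m` classes: for some closed elements `z₀ j` (`j < m`) of degree at most `m`
and for every closed element `z` of degree at most `c`, some `N • z - z₀ j`, `0 < N ≤ m`, is the
boundary of a chain of degree at most `m`. -/
def CycleComplexes.FewClasses (C : CycleComplexes) (k w : ℤ) (c m : ℕ) (F : Type) [Field F] :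
    Prop :=
  ∃ z₀ : Fin m → C.Closed F k w, (∀ j, C.degree (z₀ j) ≤ m) ∧
    ∀ z : C.Closed F k w, C.degree z ≤ c → ∃ N : ℕ, 0 < N ∧ N ≤ m ∧ ∃ j : Fin m, ∃ b,
      C.Bounds 1 (N • z - z₀ j) b ∧ C.deg F w (idx k w + 1 + 1) b ≤ m

/-- Along some sequence of algebraically closed fields whose characteristics are zero or tend to
infinity, the number of classes stays bounded. -/
def CycleComplexes.FewClosed (C : CycleComplexes) (k w : ℤ) : Prop :=
  ∃ (F : ℕ → Type) (_ : ∀ i, Field (F i)), (∀ i, IsAlgClosed (F i)) ∧ CharLarge F ∧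
    ∀ c : ℕ, ∃ m : ℕ, ∀ i, m ≤ i → C.FewClasses k w c m (F i)

variable {U : Ultrafilter ℕ} {F : ℕ → Type} [∀ i, Field (F i)] {K : Type} [Field K]
  {π : (∀ i, F i) →+* K}

/-- An ultraproduct of algebraically closed fields is algebraically closed. -/
theorem IsUltraproduct.isAlgClosed (h : IsUltraproduct U F K π) (hF : ∀ i, IsAlgClosed (F i)) :
    IsAlgClosed K := by
  refine IsAlgClosed.of_exists_root K fun p hp hirr => ?_
  choose a ha using fun j : ℕ => h.1 (p.coeff j)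
  have hd : p.natDegree ≠ 0 := hirr.natDegree_pos.ne'
  -- the polynomials over the factors
  let q : ∀ i, (F i)[X] := fun i => X ^ p.natDegree + ∑ j ∈ Finset.range p.natDegree, C (a j i) * X ^ j
  have hroot : ∀ i, ∃ x : F i, x ^ p.natDegree + ∑ j ∈ Finset.range p.natDegree, a j i * x ^ j = 0 := by
    intro i
    have := hF i
    have hlow : (∑ j ∈ Finset.range p.natDegree, C (a j i) * X ^ j : (F i)[X]).degree <
        (p.natDegree : WithBot ℕ) := by
      refine (Polynomial.degree_sum_le _ _).trans_lt ?_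
      rw [Finset.sup_lt_iff (WithBot.bot_lt_coe _)]
      intro j hj
      refine (degree_C_mul_X_pow_le j _).trans_lt ?_
      exact_mod_cast Finset.mem_range.1 hj
    have hdeg : (q i).degree = (p.natDegree : WithBot ℕ) := by
      simp only [q]
      rw [degree_add_eq_left_of_degree_lt, degree_X_pow]
      rw [degree_X_pow]; exact hlow
    obtain ⟨x, hx⟩ := IsAlgClosed.exists_root (q i) (by rw [hdeg]; exact_mod_cast hd)
    refine ⟨x, ?_⟩
    have hx' : (q i).eval x = 0 := hx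
    simpa [q, eval_finsetSum] using hx'
  choose x hx using hroot
  refine ⟨π x, ?_⟩
  rw [Polynomial.eval_eq_sum_range, Finset.sum_range_succ]
  have h1 : π x ^ p.natDegree + ∑ j ∈ Finset.range p.natDegree, p.coeff j * π x ^ j =
      π (fun i => x i ^ p.natDegree + ∑ j ∈ Finset.range p.natDegree, a j i * x i ^ j) := by
    have h2 : (fun i => x i ^ p.natDegree + ∑ j ∈ Finset.range p.natDegree, a j i * x i ^ j) =
        x ^ p.natDegree + ∑ j ∈ Finset.range p.natDegree, a j * x ^ j := by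
      funext i
      simp
    rw [h2, map_add, map_pow, map_sum]
    congr 1
    refine Finset.sum_congr rfl fun j _ => ?_
    rw [map_mul, map_pow, ha j]
  have h3 : (fun i => x i ^ p.natDegree + ∑ j ∈ Finset.range p.natDegree, a j i * x i ^ j) =
      (0 : ∀ i, F i) := by
    funext i
    exact hx i
  rw [h3, map_zero] at h1
  rw [hp.coeff_natDegree, one_mul, add_comm]
  exact h1

/-- The ultraproduct has uncountable transcendence degree. -/
theorem IsUltraproduct.trdeg (h : IsUltraproduct U F K π) (hU : (U : Filter ℕ) ≤ atTop)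
    (hF : CharLarge F) [CharZero K] : Cardinal.aleph0 < Algebra.trdeg ℚ K := by
  have hunc : Uncountable K := h.uncountable hU (many_elements hF)
  by_contra hle
  push Not at hle
  obtain ⟨B, hB⟩ := exists_isTranscendenceBasis ℚ K
  rw [← hB.cardinalMk_eq_trdeg] at hle
  have h2 : Algebra.IsAlgebraic (Algebra.adjoin ℚ (Set.range ((↑) : B → K))) K := hB.isAlgebraic
  have h3 : Cardinal.mk (Algebra.adjoin ℚ (Set.range ((↑) : B → K))) ≤ Cardinal.aleph0 := by
    refine (Algebra.cardinalMk_adjoin_le ℚ _).trans ?_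
    rw [Subtype.range_coe]
    exact max_le (max_le (by simp) hle) le_rfl
  have h4 := Algebra.IsAlgebraic.cardinalMk_le_max
    (Algebra.adjoin ℚ (Set.range ((↑) : B → K))) K
  have h5 : Cardinal.mk K ≤ Cardinal.aleph0 := h4.trans (max_le h3 le_rfl)
  rw [Cardinal.mk_le_aleph0_iff] at h5
  exact not_countable (α := K) h5

section lim

variable {C : CycleComplexes} (hC : C.DegreeLaws) {k w : ℤ}
  {lim : ∀ n : ℤ, (∀ i, C.Z (F i) w n) → C.Z K w n} (hl : C.IsUltralimit U F K w lim)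

include hC hl

omit [∀ i, Field (F i)] in
omit hC hl in
/-- limits of relations -/
theorem lim_combo {F : ℕ → Type} [∀ i, Field (F i)]
    {lim : ∀ n : ℤ, (∀ i, C.Z (F i) w n) → C.Z K w n} (hC : C.DegreeLaws)
    (hl : C.IsUltralimit U F K w lim) {n : ℤ} {x x0 : ∀ i, C.Z (F i) w n}
    {b : ∀ i, C.Z (F i) w (n + 1)} (hx : C.Bdd x) (hx0 : C.Bdd x0) (hb : C.Bdd b) (N : ℕ)
    (h : ∀ᶠ i in (U : Filter ℕ), N • x i - x0 i = C.d (F i) w n (b i)) :
    N • lim n x - lim n x0 = C.d K w n (lim (n + 1) b) := by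
  rw [← hl.bdry n b hb, sub_eq_add_neg, ← lim_neg hC hl hx0, ← lim_nsmul hC hl hx,
    ← hl.add _ _ _ (bdd_nsmul hC hx N) (bdd_neg hC hx0),
    lim_congr hC hl (bdd_add hC (bdd_nsmul hC hx N) (bdd_neg hC hx0)) (bdd_d hC hb)]
  filter_upwards [h] with i hi
  rw [← hi, sub_eq_add_neg]

/-- the limit of a sequence of closed elements of bounded degree -/
theorem lim_closed (y : ∀ i, C.Closed (F i) k w) (c : ℕ) (hy : ∀ i, C.degree (y i) ≤ c) :
    C.d K w (idx k w) (lim _ fun i => (y i : C.Z (F i) w (idx k w + 1))) = 0 := by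
  have hx : C.Bdd fun i => (y i : C.Z (F i) w (idx k w + 1)) := ⟨c, hy⟩
  rw [← hl.bdry _ _ hx, hl.zero_iff _ _ (bdd_d hC hx)]
  exact Eventually.of_forall fun i => (y i).2

/-- every closed element over the ultraproduct is such a limit -/
theorem exists_seq (z : C.Closed K k w) : ∃ (y : ∀ i, C.Closed (F i) k w) (c : ℕ),
    (∀ i, C.degree (y i) ≤ c) ∧
      lim _ (fun i => (y i : C.Z (F i) w (idx k w + 1))) =
        (z : C.Z K w (idx k w + 1)) := by
  classical
  obtain ⟨x, hx, hxz⟩ := hl.surj (idx k w + 1) (z : C.Z K w (idx k w + 1))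
  have hdx : ∀ᶠ i in (U : Filter ℕ), C.d (F i) w (idx k w) (x i) = 0 := by
    rw [← hl.zero_iff _ _ (bdd_d hC hx), hl.bdry _ _ hx, hxz]
    exact z.2
  obtain ⟨c, hc⟩ := hx
  have hex : ∀ i, ∃ y : C.Closed (F i) k w, C.degree y ≤ c ∧
      (C.d (F i) w (idx k w) (x i) = 0 → (y : C.Z (F i) w (idx k w + 1)) = x i) := by
    intro i
    by_cases hi : C.d (F i) w (idx k w) (x i) = 0
    · exact ⟨⟨x i, hi⟩, hc i, fun _ => rfl⟩
    · refine ⟨0, ?_, fun h => absurd h hi⟩
      have : C.deg (F i) w (idx k w + 1) 0 = 0 := hC.zero _ _ _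
      exact (le_of_eq this).trans (Nat.zero_le c)
  choose y hy hyx using hex
  refine ⟨y, c, hy, ?_⟩
  rw [← hxz, lim_congr hC hl ⟨c, hy⟩ ⟨c, hc⟩]
  filter_upwards [hdx] with i hi
  exact hyx i hi

end lim

variable {T : MotTheory} {C : CycleComplexes} (hC : IsCycleTheory T C)

include hC

/-- Boundedly many classes along the sequence: countable rank over the ultraproduct. -/
theorem rank_of_few [CharZero K] (h : IsUltraproduct U F K π)
    (hU : (U : Filter ℕ) ≤ atTop) (k w : ℤ)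
    (hfew : ∀ c : ℕ, ∃ m : ℕ, ∀ i, m ≤ i → C.FewClasses k w c m (F i)) :
    Module.rank ℚ (T.H (Sp K) k w) ≤ Cardinal.aleph0 := by
  classical
  have hD := hC.degree
  obtain ⟨lim, hl⟩ := hC.ultra U F K π h w
  obtain ⟨cls, hgen, hker⟩ := hC.computes K k w
  choose m hm using hfew
  have hex : ∀ c i, ∃ z₀ : Fin (m c) → C.Closed (F i) k w, (∀ j, C.degree (z₀ j) ≤ m c) ∧
      (m c ≤ i → ∀ z : C.Closed (F i) k w, C.degree z ≤ c → ∃ N : ℕ, 0 < N ∧ N ≤ m c ∧
        ∃ j : Fin (m c), ∃ b, C.Bounds 1 (N • z - z₀ j) b ∧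
          C.deg (F i) w (idx k w + 1 + 1) b ≤ m c) := by
    intro c i
    by_cases hi : m c ≤ i
    · obtain ⟨z₀, h1, h2⟩ := hm c i hi
      exact ⟨z₀, h1, fun _ => h2⟩
    · refine ⟨fun _ => 0, fun _ => ?_, fun h => absurd h hi⟩
      have : C.deg (F i) w (idx k w + 1) 0 = 0 := hD.zero _ _ _
      exact (le_of_eq this).trans (Nat.zero_le _)
  choose z₀ hz₀ hz₀' using hex
  let Z : (p : Σ c, Fin (m c)) → C.Closed K k w := fun p =>
    ⟨lim _ fun i => (z₀ p.1 i p.2 : C.Z (F i) w (idx k w + 1)),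
      lim_closed hD hl (fun i => z₀ p.1 i p.2) (m p.1) fun i => hz₀ p.1 i p.2⟩
  have hspan : Submodule.span ℚ (Set.range fun p => cls (Z p)) = ⊤ := by
    rw [eq_top_iff]
    intro a _
    obtain ⟨N, hN, z, hz⟩ := hgen a
    obtain ⟨y, c, hy, hyz⟩ := exists_seq hD hl z
    have hev : ∀ᶠ i in (U : Filter ℕ), ∃ p : Fin (m c + 1) × Fin (m c), 0 < (p.1 : ℕ) ∧
        ∃ b, C.Bounds 1 ((p.1 : ℕ) • y i - z₀ c i p.2) b ∧
          C.deg (F i) w (idx k w + 1 + 1) b ≤ m c := by
      have h1 : ∀ᶠ i in (U : Filter ℕ), m c ≤ i := hU (eventually_ge_atTop _)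
      filter_upwards [h1] with i hi
      obtain ⟨N', hN', hN'm, j, b, hb, hbm⟩ := hz₀' c i hi (y i) (hy i)
      exact ⟨(⟨N', Nat.lt_succ_of_le hN'm⟩, j), hN', b, hb, hbm⟩
    rw [Ultrafilter.eventually_exists_iff] at hev
    obtain ⟨p, hp⟩ := hev
    have hpos : 0 < (p.1 : ℕ) := by
      obtain ⟨i, hi⟩ := hp.exists
      exact hi.1
    have hex2 : ∀ i, ∃ b : C.Z (F i) w (idx k w + 1 + 1),
        C.deg (F i) w (idx k w + 1 + 1) b ≤ m c ∧
        ((0 < (p.1 : ℕ) ∧ ∃ b, C.Bounds 1 ((p.1 : ℕ) • y i - z₀ c i p.2) b ∧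
          C.deg (F i) w (idx k w + 1 + 1) b ≤ m c) →
          C.Bounds 1 ((p.1 : ℕ) • y i - z₀ c i p.2) b) := by
      intro i
      by_cases hi : (0 < (p.1 : ℕ) ∧ ∃ b, C.Bounds 1 ((p.1 : ℕ) • y i - z₀ c i p.2) b ∧
          C.deg (F i) w (idx k w + 1 + 1) b ≤ m c)
      · obtain ⟨-, b, hb, hbm⟩ := hi
        exact ⟨b, hbm, fun _ => hb⟩
      · exact ⟨0, by rw [hD.zero]; exact Nat.zero_le _, fun h => absurd h hi⟩
    choose b hbm hb using hex2
    have hx : C.Bdd fun i => (y i : C.Z (F i) w (idx k w + 1)) := ⟨c, hy⟩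
    have hx0 : C.Bdd fun i => (z₀ c i p.2 : C.Z (F i) w (idx k w + 1)) :=
      ⟨m c, fun i => hz₀ c i p.2⟩
    have hfin : (p.1 : ℕ) • (z : C.Z K w (idx k w + 1)) -
        (Z ⟨c, p.2⟩ : C.Z K w (idx k w + 1)) = C.d K w (idx k w + 1) (lim _ b) := by
      rw [← hyz]
      refine lim_combo hD hl hx hx0 ⟨_, hbm⟩ _ ?_
      filter_upwards [hp] with i hi
      have h1 := hb i hi
      unfold CycleComplexes.Bounds at h1
      rw [one_smul] at h1
      rw [← h1]
      rfl
    have hcls : cls ((p.1 : ℕ) • z - Z ⟨c, p.2⟩) = 0 := by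
      refine (hker _).2 ⟨1, one_ne_zero, lim _ b, ?_⟩
      unfold CycleComplexes.Bounds
      rw [one_smul, ← hfin]
      rfl
    rw [map_sub, map_nsmul, hz, sub_eq_zero] at hcls
    have h0 : (((p.1 : ℕ) * N : ℕ) : ℚ) • a = cls (Z ⟨c, p.2⟩) := by
      rw [Nat.cast_smul_eq_nsmul, mul_smul]; exact hcls
    have hne : (((p.1 : ℕ) * N : ℕ) : ℚ) ≠ 0 := by
      exact_mod_cast (Nat.mul_pos hpos (Nat.pos_of_ne_zero hN)).ne'
    have h3 : a = (((p.1 : ℕ) * N : ℕ) : ℚ)⁻¹ • cls (Z ⟨c, p.2⟩) := by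
      rw [← h0, smul_smul, inv_mul_cancel₀ hne, one_smul]
    rw [h3]
    exact Submodule.smul_mem _ _ (Submodule.subset_span ⟨⟨c, p.2⟩, rfl⟩)
  rw [← rank_top, ← hspan]
  refine (rank_span_le _).trans ?_
  rw [Cardinal.mk_le_aleph0_iff]
  exact (Set.countable_range _).to_subtype

variable (hT : IsMotivic T)
include hT

theorem vanish_of_few (k w : ℤ) (hk : k ≤ 0) (hw : 0 < w) (h : C.FewClosed k w) :
    FieldsVanish T k w := by
  obtain ⟨F, _, hcl, hlarge, hfew⟩ := h
  have hU : ((hyperfilter ℕ : Ultrafilter ℕ) : Filter ℕ) ≤ atTop := Nat.hyperfilter_le_atTop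
  obtain ⟨K, _, π, hK⟩ := exists_ultraproduct (hyperfilter ℕ) F
  have hK0 : CharZero K := hK.charZero hU hlarge
  have hKcl : IsAlgClosed K := hK.isAlgClosed hcl
  have htr := hK.trdeg hU hlarge
  have hr := rank_of_few hC hK hU k w hfew
  rw [← rigid_iff_vanish hT k w hk hw]
  have h6 : SmallSomewhere T k w := ⟨K, inferInstance, hK0, hKcl, htr.le,
    (rank_quotient_le _).trans_lt (hr.trans_lt htr)⟩
  exact ((tfae_rigid hT k w).out 6 0).1 h6

omit hT in
theorem few_of_vanish (k w : ℤ) (h : FieldsVanish T k w) : C.FewClosed k w := by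
  refine ⟨fun _ => AlgebraicClosure ℚ, fun _ => inferInstance, fun _ => inferInstance,
      fun n => ⟨0, fun i _ => Or.inl ringChar.eq_zero⟩, fun c => ?_⟩
  obtain ⟨m, hm⟩ := uniformAll_of_vanish hC k w h c
  have hm' := hm (AlgebraicClosure ℚ) (Or.inl ringChar.eq_zero)
  have hdeg : C.degree (0 : C.Closed (AlgebraicClosure ℚ) k w) = 0 := hC.degree.zero _ _ _
  have hmpos : 0 < m := by
    obtain ⟨N, hN, hNm, -⟩ := hm' 0 (hdeg.le.trans (Nat.zero_le c))
    omega
  refine ⟨m, fun i _ => ?_⟩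
  unfold CycleComplexes.FewClasses
  refine ⟨fun _ => 0, fun _ => hdeg.le.trans (Nat.zero_le m), fun z hz => ?_⟩
  obtain ⟨N, hN, hNm, b, hb, hbm⟩ := hm' z hz
  refine ⟨N, hN, hNm, ⟨0, hmpos⟩, b, ?_, hbm⟩
  unfold CycleComplexes.Bounds at hb ⊢
  rw [one_smul, sub_zero, ← hb]
  rfl

theorem few_iff (k w : ℤ) (hk : k ≤ 0) (hw : 0 < w) : C.FewClosed k w ↔ FieldsVanish T k w :=
  ⟨vanish_of_few hC hT k w hk hw, few_of_vanish hC k w⟩

end Pool.Agent.Helper26.BSU
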