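import Pool.Agent.Helper19.BS.Final
import Pool.Agent.Helper26.BSU.Points

/-! Vanishing of motivic cohomology and uniform bounds. -/

set_option autoImplicit false

open Filter AlgebraicGeometry CategoryTheory Pool.Agent.Helper19.BS

namespace Pool.Agent.Helper26.BSU

section lim

variable {C : CycleComplexes} (hC : C.DegreeLaws)
variable {U : Ultrafilter ℕ} {F : ℕ → Type} [∀ i, Field (F i)] {K : Type} [Field K] {w : ℤ}
  {lim : ∀ n : ℤ, (∀ i, C.Z (F i) w n) → C.Z K w n}

include hC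

lemma deg_nsmul (F : Type) [Field F] (w n : ℤ) (N : ℕ) (x : C.Z F w n) :
    C.deg F w n (N • x) ≤ N * C.deg F w n x := by
  induction N with
  | zero => rw [zero_smul, hC.zero, zero_mul]
  | succ N ih =>
    rw [succ_nsmul]
    refine (hC.add F w n _ _).trans ?_
    rw [Nat.succ_mul]
    omega

lemma bdd_add {n : ℤ} {x y : ∀ i, C.Z (F i) w n} (hx : C.Bdd x) (hy : C.Bdd y) :
    C.Bdd fun i => x i + y i := by
  obtain ⟨a, ha⟩ := hx
  obtain ⟨b, hb⟩ := hy
  exact ⟨a + b, fun i => (hC.add _ _ _ _ _).trans (add_le_add (ha i) (hb i))⟩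

lemma bdd_neg {n : ℤ} {x : ∀ i, C.Z (F i) w n} (hx : C.Bdd x) : C.Bdd fun i => -x i := by
  obtain ⟨a, ha⟩ := hx
  exact ⟨a, fun i => by rw [hC.neg]; exact ha i⟩

lemma bdd_zero (n : ℤ) : C.Bdd (fun i => (0 : C.Z (F i) w n)) :=
  ⟨0, fun i => by rw [hC.zero]⟩

lemma bdd_nsmul {n : ℤ} {x : ∀ i, C.Z (F i) w n} (hx : C.Bdd x) (N : ℕ) :
    C.Bdd fun i => N • x i := by
  obtain ⟨a, ha⟩ := hx
  exact ⟨N * a, fun i => (deg_nsmul hC _ _ _ _ _).trans (Nat.mul_le_mul_left N (ha i))⟩

lemma bdd_d {n : ℤ} {x : ∀ i, C.Z (F i) w (n + 1)} (hx : C.Bdd x) :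
    C.Bdd fun i => C.d (F i) w n (x i) := by
  obtain ⟨a, ha⟩ := hx
  obtain ⟨b, hb⟩ := hC.bdry w n a
  exact ⟨b, fun i => hb (F i) (x i) (ha i)⟩

variable (hl : C.IsUltralimit U F K w lim)
include hl

lemma lim_zero (n : ℤ) : lim n (fun _ => 0) = 0 :=
  (hl.zero_iff n _ (bdd_zero hC n)).2 (Eventually.of_forall fun _ => rfl)

lemma lim_neg {n : ℤ} {x : ∀ i, C.Z (F i) w n} (hx : C.Bdd x) :
    lim n (fun i => -x i) = -lim n x := by
  have h := hl.add n x (fun i => -x i) hx (bdd_neg hC hx)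
  simp only [add_neg_cancel] at h
  rw [lim_zero hC hl] at h
  exact (neg_eq_of_add_eq_zero_right h.symm).symm

lemma lim_congr {n : ℤ} {x y : ∀ i, C.Z (F i) w n} (hx : C.Bdd x) (hy : C.Bdd y) :
    lim n x = lim n y ↔ ∀ᶠ i in (U : Filter ℕ), x i = y i := by
  have h := hl.add n x (fun i => -y i) hx (bdd_neg hC hy)
  rw [lim_neg hC hl hy] at h
  have h2 := hl.zero_iff n _ (bdd_add hC hx (bdd_neg hC hy))
  rw [h, ← sub_eq_add_neg, sub_eq_zero] at h2
  rw [h2]
  simp only [← sub_eq_add_neg, sub_eq_zero]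

lemma lim_nsmul {n : ℤ} {x : ∀ i, C.Z (F i) w n} (hx : C.Bdd x) (N : ℕ) :
    lim n (fun i => N • x i) = N • lim n x := by
  induction N with
  | zero =>
    simp only [zero_smul]
    exact lim_zero hC hl n
  | succ N ih =>
    simp only [succ_nsmul]
    rw [hl.add n _ _ (bdd_nsmul hC hx N) hx, ih]

end lim

variable {T : MotTheory} {C : CycleComplexes} (hC : IsCycleTheory T C)

include hC

/-- Uniform bounds along a sequence give the vanishing over the ultraproduct. -/
theorem vanish_of_uniform {U : Ultrafilter ℕ} {F : ℕ → Type} [∀ i, Field (F i)] {K : Type}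
    [Field K] [CharZero K] {π : (∀ i, F i) →+* K} (h : IsUltraproduct U F K π)
    (hU : (U : Filter ℕ) ≤ atTop) (k w : ℤ) (hun : C.UniformAlong k w F) :
    Subsingleton (T.H (Sp K) k w) := by
  classical
  have hD := hC.degree
  obtain ⟨lim, hl⟩ := hC.ultra U F K π h w
  obtain ⟨cls, hgen, hker⟩ := hC.computes K k w
  suffices key : ∀ a : T.H (Sp K) k w, a = 0 from ⟨fun a b => by rw [key a, key b]⟩
  intro a
  obtain ⟨N, hN, z, hz⟩ := hgen a
  -- a sequence representing `z`
  obtain ⟨x, hx, hxz⟩ := hl.surj (idx k w + 1) (z : C.Z K w (idx k w + 1))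
  have hdx : ∀ᶠ i in (U : Filter ℕ), C.d (F i) w (idx k w) (x i) = 0 := by
    rw [← hl.zero_iff _ _ (bdd_d hD hx), hl.bdry _ _ hx, hxz]
    exact z.2
  let y : ∀ i, C.Z (F i) w (idx k w + 1) :=
    fun i => if C.d (F i) w (idx k w) (x i) = 0 then x i else 0
  have hyd : ∀ i, C.d (F i) w (idx k w) (y i) = 0 := by
    intro i
    by_cases hi : C.d (F i) w (idx k w) (x i) = 0
    · simp only [y, if_pos hi, hi]
    · simp only [y, if_neg hi, map_zero]
  obtain ⟨c, hc⟩ := hx
  have hyc : ∀ i, C.deg (F i) w (idx k w + 1) (y i) ≤ c := by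
    intro i
    by_cases hi : C.d (F i) w (idx k w) (x i) = 0
    · simp only [y, if_pos hi]; exact hc i
    · simp only [y, if_neg hi, hD.zero]; exact Nat.zero_le c
  have hlimy : lim _ y = (z : C.Z K w (idx k w + 1)) := by
    rw [← hxz, lim_congr hD hl ⟨c, hyc⟩ ⟨c, hc⟩]
    filter_upwards [hdx] with i hi
    simp only [y, if_pos hi]
  -- the uniform bound
  obtain ⟨m, hm⟩ := hun c
  have hex : ∀ i, ∃ b : C.Z (F i) w (idx k w + 1 + 1),
      C.deg (F i) w (idx k w + 1 + 1) b ≤ m.factorial * m ∧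
      (m ≤ i → m.factorial • y i = C.d (F i) w (idx k w + 1) b) := by
    intro i
    by_cases hi : m ≤ i
    · obtain ⟨N', hN', hN'm, b, hb, hbm⟩ := hm i hi ⟨y i, hyd i⟩ (hyc i)
      obtain ⟨q, hq⟩ := Nat.dvd_factorial hN' hN'm
      refine ⟨q • b, ?_, fun _ => ?_⟩
      · refine (deg_nsmul hD _ _ _ _ _).trans ?_
        have hqle : q ≤ m.factorial := by
          rw [hq]
          exact Nat.le_mul_of_pos_left q hN'
        exact Nat.mul_le_mul hqle hbm
      · have hb' : N' • y i = C.d (F i) w (idx k w + 1) b := hb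
        rw [map_nsmul, ← hb', smul_smul, hq, Nat.mul_comm N' q]
    · exact ⟨0, by rw [hD.zero]; exact Nat.zero_le _, fun h => absurd h hi⟩
  choose b hbdeg hb using hex
  have hev : ∀ᶠ i in (U : Filter ℕ), m ≤ i := hU (eventually_ge_atTop m)
  have hfin : m.factorial • (z : C.Z K w (idx k w + 1)) =
      C.d K w (idx k w + 1) (lim _ b) := by
    rw [← hlimy, ← lim_nsmul hD hl ⟨c, hyc⟩, ← hl.bdry _ b ⟨_, hbdeg⟩,
      lim_congr hD hl (bdd_nsmul hD ⟨c, hyc⟩ _) (bdd_d hD ⟨_, hbdeg⟩)]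
    filter_upwards [hev] with i hi
    exact hb i hi
  have hcls : cls z = 0 := (hker z).2 ⟨m.factorial, m.factorial_ne_zero, lim _ b, hfin⟩
  rw [hz] at hcls
  have h0 : ((N : ℚ)) • a = 0 := by
    rw [Nat.cast_smul_eq_nsmul]; exact hcls
  exact (smul_eq_zero.1 h0).resolve_left (by exact_mod_cast hN)

/-- The vanishing over all fields of characteristic zero gives uniform bounds. -/
theorem uniformAll_of_vanish (k w : ℤ) (hv : FieldsVanish T k w) : C.UniformAll k w := by
  classical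
  by_contra hcon
  unfold CycleComplexes.UniformAll at hcon
  push Not at hcon
  obtain ⟨c, hc⟩ := hcon
  unfold CycleComplexes.BoundedBy at hc
  push Not at hc
  choose F inst hF z hz hbad using hc
  have hD := hC.degree
  let U : Ultrafilter ℕ := hyperfilter ℕ
  have hU : (U : Filter ℕ) ≤ atTop := Nat.hyperfilter_le_atTop
  obtain ⟨K, _, π, h⟩ := exists_ultraproduct U F
  have hlarge : CharLarge F := by
    intro n
    refine ⟨n, fun i hi => ?_⟩
    rcases hF i with h0 | h1
    · exact Or.inl h0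
    · exact Or.inr (hi.trans h1)
  have hK : CharZero K := h.charZero hU hlarge
  obtain ⟨lim, hl⟩ := hC.ultra U F K π h w
  obtain ⟨cls, -, hker⟩ := hC.computes K k w
  let x : ∀ i, C.Z (F i) w (idx k w + 1) := fun i => z i
  have hx : C.Bdd x := ⟨c, fun i => hz i⟩
  have hdx : C.d K w (idx k w) (lim _ x) = 0 := by
    rw [← hl.bdry _ x hx, hl.zero_iff _ _ (bdd_d hD hx)]
    exact Eventually.of_forall fun i => (z i).2
  have hsub := hv K
  obtain ⟨N, hN, b, hb⟩ := (hker ⟨lim _ x, hdx⟩).1 (Subsingleton.elim _ _)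
  obtain ⟨b', ⟨c', hc'⟩, hbb⟩ := hl.surj _ b
  have hb2 : N • lim _ x = C.d K w (idx k w + 1) b := hb
  rw [← hbb, ← lim_nsmul hD hl hx, ← hl.bdry _ b' ⟨c', hc'⟩,
    lim_congr hD hl (bdd_nsmul hD hx _) (bdd_d hD ⟨c', hc'⟩)] at hb2
  have hev : ∀ᶠ i in (U : Filter ℕ), max N c' ≤ i := hU (eventually_ge_atTop _)
  obtain ⟨i, hi, hi'⟩ := (hb2.and hev).exists
  have h1 := hbad i N (Nat.pos_of_ne_zero hN) ((le_max_left _ _).trans hi') (b' i) hi
  have h2 := hc' i
  have h3 : c' ≤ i := (le_max_right _ _).trans hi'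
  omega

omit hC in
lemma uniformAlong_comp {k w : ℤ} {F : ℕ → Type} [∀ i, Field (F i)] (j : ℕ → ℕ)
    (hj : ∀ i, i ≤ j i) (h : C.UniformAlong k w F) : C.UniformAlong k w fun i => F (j i) := by
  intro c
  obtain ⟨m, hm⟩ := h c
  exact ⟨m, fun i hi => hm (j i) (hi.trans (hj i))⟩

variable (hT : IsMotivic T)
include hT

/-- Vanishing for all fields from good sequences for every countable field. -/
theorem vanish_of_sequences (k w : ℤ)
    (h : ∀ (E : Type) [Field E] [CharZero E] [Countable E] (S : ℕ → Finset E),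
      ∃ (F : ℕ → Type) (_ : ∀ i, Field (F i)), CharLarge F ∧ C.UniformAlong k w F ∧
        ∀ i, Nonempty (Subring.closure (S i : Set E) →+* F i)) :
    FieldsVanish T k w := by
  intro L _ _
  apply sub_of_fg hT
  intro E _ _ _
  have := countable_of_ess E
  obtain ⟨S, hS⟩ := exists_finsets E
  obtain ⟨F, _, hlarge, hun, hφ⟩ := h E S
  have hU : ((hyperfilter ℕ : Ultrafilter ℕ) : Filter ℕ) ≤ atTop := Nat.hyperfilter_le_atTop
  obtain ⟨K, _, π, hK⟩ := exists_ultraproduct (hyperfilter ℕ) F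
  have hK0 : CharZero K := hK.charZero hU hlarge
  obtain ⟨f⟩ := exists_hom_of_finset S hS hK hU hφ
  exact sub_of_hom hT f (vanish_of_uniform hC hK hU k w hun)

theorem vanish_of_uniformPrime (k w : ℤ) (h : C.UniformPrime k w) : FieldsVanish T k w := by
  apply vanish_of_sequences hC hT
  intro E _ _ _ S
  choose p hp hip hφ using fun i => exists_prime_point E (S i) i
  refine ⟨fun i => ZMod (p i), fun i => inferInstance, ?_, ?_, hφ⟩
  · intro n
    refine ⟨n, fun i hi => Or.inr ?_⟩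
    rw [ZMod.ringChar_zmod_n]
    exact hi.trans (hip i)
  · intro c
    obtain ⟨m, hm⟩ := h c
    exact ⟨m, fun i hi => hm (p i) (hi.trans (hip i))⟩

theorem vanish_of_uniformNumber (k w : ℤ) (h : C.UniformNumber k w) : FieldsVanish T k w := by
  apply vanish_of_sequences hC hT
  intro E _ _ _ S
  choose κ h1 h2 S' hφ using fun i => exists_numberField E (S i)
  refine ⟨κ, h1, ?_, ?_, fun i => ?_⟩
  · intro n
    exact ⟨0, fun i _ => Or.inl ringChar.eq_zero⟩
  · intro c
    obtain ⟨m, hm⟩ := h c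
    exact ⟨m, fun i _ => hm (κ i)⟩
  · obtain ⟨g⟩ := hφ i
    exact ⟨(Subring.subtype _).comp g⟩

theorem vanish_of_uniformClosed (k w : ℤ) (h : C.UniformClosed k w) : FieldsVanish T k w := by
  apply vanish_of_sequences hC hT
  intro E _ _ _ S
  obtain ⟨F, _, hcl, hlarge, hun⟩ := h
  choose m hm using fun i => exists_closed_point E (S i)
  choose i₀ hi₀ using hlarge
  let j : ℕ → ℕ := fun i => max i (i₀ (max i (m i)))
  have hj : ∀ i, i ≤ j i := fun i => le_max_left _ _
  have hj2 : ∀ i, ringChar (F (j i)) = 0 ∨ max i (m i) ≤ ringChar (F (j i)) :=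
    fun i => hi₀ (max i (m i)) (j i) (le_max_right _ _)
  refine ⟨fun i => F (j i), fun i => inferInstance, ?_, uniformAlong_comp j hj hun, fun i => ?_⟩
  · intro n
    refine ⟨n, fun i hi => ?_⟩
    rcases hj2 i with h0 | h0
    · exact Or.inl h0
    · exact Or.inr ((hi.trans (le_max_left _ _)).trans h0)
  · have := hcl (j i)
    refine hm i (F (j i)) ?_
    rcases hj2 i with h0 | h0
    · exact Or.inl h0
    · exact Or.inr ((le_max_right _ _).trans h0)

/-- Uniform bounds in degree `k + 1` and weight `w + 1` along one sequence of fields give the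
vanishing in degree `k` and weight `w` over all fields. -/
theorem vanish_of_uniformSomewhere (k w : ℤ) (h : C.UniformSomewhere (k + 1) (w + 1)) :
    FieldsVanish T k w := by
  obtain ⟨F, _, hlarge, hun⟩ := h
  have hU : ((hyperfilter ℕ : Ultrafilter ℕ) : Filter ℕ) ≤ atTop := Nat.hyperfilter_le_atTop
  obtain ⟨K, _, π, hK⟩ := exists_ultraproduct (hyperfilter ℕ) F
  have hK0 : CharZero K := hK.charZero hU hlarge
  have hv := vanish_of_uniform hC hK hU (k + 1) (w + 1) hun
  have hunc : Uncountable K := hK.uncountable hU (many_elements hlarge)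
  have hL : Large K := by
    unfold Large
    by_contra hlt
    push Not at hlt
    obtain ⟨B, hB⟩ := exists_isTranscendenceBasis ℚ K
    rw [← hB.cardinalMk_eq_trdeg] at hlt
    have h1 : Countable B := by
      rw [← Cardinal.mk_le_aleph0_iff]; exact hlt.le
    have h2 : Algebra.IsAlgebraic (Algebra.adjoin ℚ (Set.range ((↑) : B → K))) K := hB.isAlgebraic
    have h3 : Cardinal.mk (Algebra.adjoin ℚ (Set.range ((↑) : B → K))) ≤ Cardinal.aleph0 := by
      refine (Algebra.cardinalMk_adjoin_le ℚ _).trans ?_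
      rw [Subtype.range_coe]
      refine max_le (max_le (by simp) ?_) le_rfl
      exact hlt.le
    have h4 := Algebra.IsAlgebraic.cardinalMk_le_max
      (Algebra.adjoin ℚ (Set.range ((↑) : B → K))) K
    have h5 : Cardinal.mk K ≤ Cardinal.aleph0 := h4.trans (max_le h3 le_rfl)
    rw [Cardinal.mk_le_aleph0_iff] at h5
    exact not_countable (α := K) h5
  refine vanish_of_small hT k w ⟨K, inferInstance, hK0, hL, ?_⟩
  have h6 : Subsingleton (NewClasses T ℚ K (k + 1) (w + 1)) :=
    (Submodule.mkQ_surjective _).subsingleton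
  rw [rank_subsingleton']
  exact lt_of_lt_of_le Cardinal.aleph0_pos hL

theorem tfae_uniform (k w : ℤ) : List.TFAE
    [FieldsVanish T k w, C.UniformAll k w, C.UniformPrime k w, C.UniformNumber k w,
      C.UniformClosed k w] := by
  tfae_have 1 → 2 := uniformAll_of_vanish hC k w
  tfae_have 2 → 3 := by
    intro h c
    obtain ⟨m, hm⟩ := h c
    exact ⟨m, fun p _ hp => hm (ZMod p) (Or.inr (by rw [ZMod.ringChar_zmod_n]; exact hp))⟩
  tfae_have 2 → 4 := by
    intro h c
    obtain ⟨m, hm⟩ := h c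
    exact ⟨m, fun F _ _ => hm F (Or.inl ringChar.eq_zero)⟩
  tfae_have 2 → 5 := by
    intro h
    refine ⟨fun _ => AlgebraicClosure ℚ, fun _ => inferInstance, fun _ => inferInstance,
      fun n => ⟨0, fun i _ => Or.inl ringChar.eq_zero⟩, fun c => ?_⟩
    obtain ⟨m, hm⟩ := h c
    exact ⟨m, fun i _ => hm _ (Or.inl ringChar.eq_zero)⟩
  tfae_have 3 → 1 := vanish_of_uniformPrime hC hT k w
  tfae_have 4 → 1 := vanish_of_uniformNumber hC hT k w
  tfae_have 5 → 1 := vanish_of_uniformClosed hC hT k w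
  tfae_finish

theorem tfae_bs (P : ∀ X : Scheme.{0}, (X ⟶ Sp ℂ) → Prop) (hP : IsClass P) : List.TFAE
    [ForClass P (BeilinsonSoule T), ForAll (BeilinsonSoule T), ∀ w > 0, C.UniformAll (-1) w,
     ∀ w > 0, C.UniformPrime (-1) w, ∀ w > 0, C.UniformNumber (-1) w,
     ∀ w > 0, C.UniformClosed (-1) w] := by
  have h0 : ForAll (BeilinsonSoule T) ↔ ∀ w : ℤ, w > 0 → FieldsVanish T (-1) w := by
    have h := (tfae_weak hT P hP).out 1 2
    rw [h]
    exact forall₂_congr fun w hw => rigid_iff_vanish hT (-1) w (by norm_num) hw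
  tfae_have 1 ↔ 2 := (tfae_weak hT P hP).out 0 1
  tfae_have 2 ↔ 3 := by
    rw [h0]; exact forall₂_congr fun w _ => (tfae_uniform hC hT (-1) w).out 0 1
  tfae_have 2 ↔ 4 := by
    rw [h0]; exact forall₂_congr fun w _ => (tfae_uniform hC hT (-1) w).out 0 2
  tfae_have 2 ↔ 5 := by
    rw [h0]; exact forall₂_congr fun w _ => (tfae_uniform hC hT (-1) w).out 0 3
  tfae_have 2 ↔ 6 := by
    rw [h0]; exact forall₂_congr fun w _ => (tfae_uniform hC hT (-1) w).out 0 4
  tfae_finish

theorem tfae_strongBS (P : ∀ X : Scheme.{0}, (X ⟶ Sp ℂ) → Prop) (hP : IsClass P) : List.TFAE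
    [ForClass P (StrongBeilinsonSoule T), ForAll (StrongBeilinsonSoule T),
     ∀ w > 0, C.UniformAll 0 w, ∀ w > 0, C.UniformPrime 0 w, ∀ w > 0, C.UniformNumber 0 w,
     ∀ w > 0, C.UniformClosed 0 w] := by
  have h0 : ForAll (StrongBeilinsonSoule T) ↔ ∀ w : ℤ, w > 0 → FieldsVanish T 0 w := by
    have h := (tfae_strong hT P hP).out 1 2
    rw [h]
    exact forall₂_congr fun w hw => rigid_iff_vanish hT 0 w le_rfl hw
  tfae_have 1 ↔ 2 := (tfae_strong hT P hP).out 0 1
  tfae_have 2 ↔ 3 := by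
    rw [h0]; exact forall₂_congr fun w _ => (tfae_uniform hC hT 0 w).out 0 1
  tfae_have 2 ↔ 4 := by
    rw [h0]; exact forall₂_congr fun w _ => (tfae_uniform hC hT 0 w).out 0 2
  tfae_have 2 ↔ 5 := by
    rw [h0]; exact forall₂_congr fun w _ => (tfae_uniform hC hT 0 w).out 0 3
  tfae_have 2 ↔ 6 := by
    rw [h0]; exact forall₂_congr fun w _ => (tfae_uniform hC hT 0 w).out 0 4
  tfae_finish

/-- Uniform bounds in degree zero over a single field imply the Beilinson-Soule vanishing. -/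
theorem bs_of_somewhere (h : ∀ w : ℤ, 2 ≤ w → C.UniformSomewhere 0 w) :
    ForAll (BeilinsonSoule T) := by
  intro F _ _ X f hX
  refine bs_of hT (fun w => ?_) F X f hX
  by_cases hw : 0 < w
  · have h1 := h (w + 1) (by omega)
    exact vanish_of_uniformSomewhere hC hT (-1) w (by simpa using h1) ℂ
  · exact hT.low_weight ℂ (-1) w (by norm_num) (by omega)

end Pool.Agent.Helper26.BSU
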