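import Mathlib
import Pool.Agent.Helper26.BSU.Conditions

set_option autoImplicit false

open AlgebraicGeometry CategoryTheory Pool.Agent.Helper19.BS Pool.Agent.Helper26.BSU
  Pool.Agent.Helper63.PPF

namespace Pool.Agent.Results.MP_d72c81_ag.ProductOfFields

/-- The Beilinson-Soule vanishing for smooth projective complex varieties is a uniform version of
Quillen's theorem on the K-theory of finite fields: it is equivalent to the vanishing of the
groups `K_{2w+1}` (weight `w` part, rationally) of the product of all prime fields `𝔽_p`, and to
bounds, independent of the prime `p`, for the degree of a chain over `𝔽_p` with a given boundary.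
The same holds for the strong form (degree zero) and in every degree and positive weight; and
dimension less than the continuum, or boundedly many classes, are enough. -/
theorem result (T : MotTheory) (hT : IsMotivic T) (hK : KTheoretic T) (C : CycleComplexes)
    (hC : IsCycleTheory T C) :
    (∀ P : ∀ X : Scheme.{0}, (X ⟶ Sp ℂ) → Prop, IsClass P →
      (classConditions T C (BeilinsonSoule T) (-1) P).TFAE ∧
      (classConditions T C (StrongBeilinsonSoule T) 0 P).TFAE) ∧
    ∀ k w : ℤ, 0 < w → (fieldConditions T C k w).TFAE ∧
      (k ≤ 0 → (C.FewClosed k w ↔ FieldsVanish T k w)) ∧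
      (SmallOrUniform T C (k + 1) (w + 1) → FieldsVanish T k w) :=
  ⟨fun P hP => ⟨tfae_classConditions hT hK hC P hP, tfae_classConditions_strong hT hK hC P hP⟩,
    fun k w hw => ⟨tfae_fieldConditions hT hK hC k w hw,
      fun hk => few_iff hC hT k w hk hw,
      vanish_of_smallOrUniform hT hK hC k w⟩⟩

end Pool.Agent.Results.MP_d72c81_ag.ProductOfFields
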