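import Pool.Agent.Helper26.BSU.Defs

/-! Ultraproducts of sequences of fields. -/

set_option autoImplicit false

open Filter

namespace Pool.Agent.Helper26.BSU

section

variable (U : Ultrafilter ℕ) (F : ℕ → Type) [∀ i, Field (F i)]

/-- the ideal of the sequences which vanish almost everywhere -/
def ufIdeal : Ideal (∀ i, F i) where
  carrier := {x | ∀ᶠ i in (U : Filter ℕ), x i = 0}
  add_mem' := by
    intro x y hx hy
    filter_upwards [hx, hy] with i h1 h2
    rw [Pi.add_apply, h1, h2, add_zero]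
  zero_mem' := by
    filter_upwards with i
    rfl
  smul_mem' := by
    intro c x hx
    filter_upwards [hx] with i h
    rw [smul_eq_mul, Pi.mul_apply, h, mul_zero]

lemma mem_ufIdeal (x : ∀ i, F i) : x ∈ ufIdeal U F ↔ ∀ᶠ i in (U : Filter ℕ), x i = 0 := Iff.rfl

lemma ufIdeal_isMaximal : (ufIdeal U F).IsMaximal := by
  classical
  rw [Ideal.isMaximal_iff]
  refine ⟨?_, ?_⟩
  · rw [mem_ufIdeal]
    intro h
    have h2 : ∀ᶠ _i in (U : Filter ℕ), False := by
      filter_upwards [h] with i hi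
      exact one_ne_zero hi
    exact (Filter.eventually_false_iff_eq_bot.1 h2 ▸ (inferInstance : (U : Filter ℕ).NeBot)).ne rfl
  · intro J x hJ hx hxJ
    rw [mem_ufIdeal, ← Ultrafilter.eventually_not] at hx
    have h1 : (1 : ∀ i, F i) - (fun i => (x i)⁻¹) * x ∈ ufIdeal U F := by
      rw [mem_ufIdeal]
      filter_upwards [hx] with i hi
      rw [Pi.sub_apply, Pi.mul_apply, Pi.one_apply, inv_mul_cancel₀ hi, sub_self]
    have h2 := J.add_mem (hJ h1) (J.mul_mem_left (fun i => (x i)⁻¹) hxJ)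
    simpa using h2

theorem exists_ultraproduct : ∃ (K : Type) (_ : Field K) (π : (∀ i, F i) →+* K),
    IsUltraproduct U F K π := by
  have := ufIdeal_isMaximal U F
  refine ⟨(∀ i, F i) ⧸ ufIdeal U F, Ideal.Quotient.field _, Ideal.Quotient.mk _,
    Ideal.Quotient.mk_surjective, fun x => ?_⟩
  rw [Ideal.Quotient.eq_zero_iff_mem, mem_ufIdeal]

end

variable {U : Ultrafilter ℕ} {F : ℕ → Type} [∀ i, Field (F i)] {K : Type} [Field K]
  {π : (∀ i, F i) →+* K}

theorem IsUltraproduct.eq_iff (h : IsUltraproduct U F K π) (x y : ∀ i, F i) :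
    π x = π y ↔ ∀ᶠ i in (U : Filter ℕ), x i = y i := by
  rw [← sub_eq_zero, ← map_sub, h.2]
  simp only [Pi.sub_apply, sub_eq_zero]

theorem natCast_ne_zero_iff (F : Type) [Field F] (m : ℕ) :
    (ringChar F = 0 ∨ m ≤ ringChar F) ↔ ∀ n : ℕ, 0 < n → n < m → (n : F) ≠ 0 := by
  constructor
  · rintro (h | h) n hn hnm h0
    · rw [ringChar.spec, h, Nat.zero_dvd] at h0
      omega
    · rw [ringChar.spec] at h0
      exact absurd (Nat.le_of_dvd hn h0) (by omega)
  · intro h
    by_contra hcon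
    push Not at hcon
    exact h (ringChar F) (Nat.pos_of_ne_zero hcon.1) hcon.2 (ringChar.Nat.cast_ringChar)

theorem IsUltraproduct.charZero (h : IsUltraproduct U F K π) (hU : (U : Filter ℕ) ≤ atTop)
    (hF : CharLarge F) : CharZero K := by
  refine charZero_of_inj_zero fun n hn => ?_
  by_contra hn0
  have h1 : π (n : ∀ i, F i) = 0 := by rw [map_natCast, hn]
  rw [h.2] at h1
  obtain ⟨i₀, hi₀⟩ := hF (n + 1)
  have h2 : ∀ᶠ i in (U : Filter ℕ), i₀ ≤ i := hU (eventually_ge_atTop i₀)
  obtain ⟨i, hi, hi'⟩ := (h1.and h2).exists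
  have h3 := (natCast_ne_zero_iff (F i) (n + 1)).1 (hi₀ i hi') n (Nat.pos_of_ne_zero hn0)
    (Nat.lt_succ_self n)
  exact h3 (by simpa using hi)

/-- A countable field which is the union of an increasing sequence of subrings `R i` with
homomorphisms `R i → F i` embeds in the ultraproduct. -/
theorem IsUltraproduct.exists_hom (h : IsUltraproduct U F K π) (hU : (U : Filter ℕ) ≤ atTop)
    {L : Type} [Field L] (R : ℕ → Subring L) (hmono : ∀ x, ∃ i₀, ∀ i, i₀ ≤ i → x ∈ R i)
    (φ : ∀ i, R i →+* F i) : Nonempty (L →+* K) := by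
  classical
  let f : L → ∀ i, F i := fun x i => if hx : x ∈ R i then φ i ⟨x, hx⟩ else 0
  have hf : ∀ x i (hx : x ∈ R i), f x i = φ i ⟨x, hx⟩ := fun x i hx => dif_pos hx
  have hev : ∀ x, ∀ᶠ i in (U : Filter ℕ), x ∈ R i := by
    intro x
    obtain ⟨i₀, hi₀⟩ := hmono x
    exact hU ((eventually_ge_atTop i₀).mono hi₀)
  refine ⟨{ toFun := fun x => π (f x), map_one' := ?_, map_mul' := ?_, map_zero' := ?_,
            map_add' := ?_ }⟩
  · rw [← map_one π, h.eq_iff]
    filter_upwards [hev 1] with i hi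
    rw [hf 1 i hi, Pi.one_apply]
    exact map_one (φ i)
  · intro x y
    rw [← map_mul π, h.eq_iff]
    filter_upwards [hev x, hev y, hev (x * y)] with i hx hy hxy
    rw [hf _ i hxy, Pi.mul_apply, hf _ i hx, hf _ i hy, ← map_mul]
    rfl
  · rw [← map_zero π, h.eq_iff]
    filter_upwards [hev 0] with i hi
    rw [hf 0 i hi, Pi.zero_apply]
    exact map_zero (φ i)
  · intro x y
    rw [← map_add π, h.eq_iff]
    filter_upwards [hev x, hev y, hev (x + y)] with i hx hy hxy
    rw [hf _ i hxy, Pi.add_apply, hf _ i hx, hf _ i hy, ← map_add]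
    rfl

/-- If for every finite set `S` in the countable field `L` and all large `i` the ring generated by
`S` maps to `F i` then `L` embeds in the ultraproduct of a subsequence. -/
theorem exists_hom_of_finset {L : Type} [Field L] [Countable L] (S : ℕ → Finset L)
    (hS : ∀ x, ∃ i₀, ∀ i, i₀ ≤ i → x ∈ S i) (h : IsUltraproduct U F K π)
    (hU : (U : Filter ℕ) ≤ atTop)
    (φ : ∀ i, Nonempty (Subring.closure (S i : Set L) →+* F i)) : Nonempty (L →+* K) := by
  refine h.exists_hom hU (fun i => Subring.closure (S i : Set L)) ?_ fun i => (φ i).some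
  intro x
  obtain ⟨i₀, hi₀⟩ := hS x
  exact ⟨i₀, fun i hi => Subring.subset_closure (hi₀ i hi)⟩

/-- an exhausting sequence of finite sets -/
theorem exists_finsets (L : Type) [Countable L] [Nonempty L] :
    ∃ S : ℕ → Finset L, ∀ x, ∃ i₀, ∀ i, i₀ ≤ i → x ∈ S i := by
  classical
  obtain ⟨e, he⟩ := exists_surjective_nat L
  refine ⟨fun i => (Finset.range (i + 1)).image e, fun x => ?_⟩
  obtain ⟨j, rfl⟩ := he x
  exact ⟨j, fun i hi => Finset.mem_image.2 ⟨j, Finset.mem_range.2 (by omega), rfl⟩⟩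

/-- If the fields `F i` have more and more elements then the ultraproduct is uncountable. -/
theorem IsUltraproduct.uncountable (h : IsUltraproduct U F K π) (hU : (U : Filter ℕ) ≤ atTop)
    (hF : ∀ n : ℕ, ∃ i₀ : ℕ, ∀ i, i₀ ≤ i → ∀ s : Finset (F i), s.card ≤ n → ∃ y, y ∉ s) :
    Uncountable K := by
  classical
  rw [← not_countable_iff]
  intro hc
  obtain ⟨e, he⟩ := exists_surjective_nat K
  choose x hx using fun j => h.1 (e j)
  -- choose `y i` outside `x 0 i, ..., x (n i) i` with `n i` as large as possible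
  choose i₀ hi₀ using hF
  have hex : ∀ i, ∃ y : F i, ∀ j, (∀ l, l ≤ j + 1 → i₀ l ≤ i) → j ≤ i → y ≠ x j i := by
    intro i
    by_cases hgood : ∃ j, (∀ l, l ≤ j + 1 → i₀ l ≤ i) ∧ j ≤ i
    · let J := (Finset.range (i + 1)).filter fun j => ∀ l, l ≤ j + 1 → i₀ l ≤ i
      have hJne : J.Nonempty := by
        obtain ⟨j, hj, hji⟩ := hgood
        exact ⟨j, Finset.mem_filter.2 ⟨Finset.mem_range.2 (by omega), hj⟩⟩
      let n := J.max' hJne
      have hn : n ∈ J := J.max'_mem hJne
      rw [Finset.mem_filter] at hn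
      have hcard : ((Finset.range (n + 1)).image fun j => x j i).card ≤ n + 1 :=
        Finset.card_image_le.trans (by rw [Finset.card_range])
      obtain ⟨y, hy⟩ := hi₀ (n + 1) i (hn.2 (n + 1) le_rfl) _ hcard
      refine ⟨y, fun j hj hji hyj => hy ?_⟩
      have hjn : j ≤ n := J.le_max' j (Finset.mem_filter.2 ⟨Finset.mem_range.2 (by omega), hj⟩)
      exact Finset.mem_image.2 ⟨j, Finset.mem_range.2 (by omega), hyj.symm⟩
    · exact ⟨0, fun j hj hji => absurd ⟨j, hj, hji⟩ hgood⟩
  choose y hy using hex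
  obtain ⟨j, hj⟩ := he (π y)
  have h1 : π y = π (x j) := by rw [hx j, hj]
  rw [h.eq_iff] at h1
  let b := max j ((Finset.range (j + 2)).sup i₀)
  have h2 : ∀ᶠ i in (U : Filter ℕ), b ≤ i := hU (eventually_ge_atTop b)
  obtain ⟨i, hi, hbi⟩ := (h1.and h2).exists
  refine hy i j ?_ (le_trans (le_max_left _ _) hbi) hi
  intro l hl
  exact (Finset.le_sup (f := i₀) (Finset.mem_range.2 (by omega : l < j + 2))).trans
    ((le_max_right _ _).trans hbi)

/-- fields of characteristic zero or large have many elements -/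
theorem many_elements (hF : CharLarge F) (n : ℕ) :
    ∃ i₀ : ℕ, ∀ i, i₀ ≤ i → ∀ s : Finset (F i), s.card ≤ n → ∃ y, y ∉ s := by
  classical
  obtain ⟨i₀, hi₀⟩ := hF (n + 1)
  refine ⟨i₀, fun i hi s hs => ?_⟩
  have h := (natCast_ne_zero_iff (F i) (n + 1)).1 (hi₀ i hi)
  by_contra hcon
  push Not at hcon
  have hinj : Set.InjOn (fun j : ℕ => (j : F i)) (Finset.range (n + 1)) := by
    intro a ha b hb hab
    simp only [Finset.coe_range, Set.mem_Iio] at ha hb
    by_contra hne
    rcases lt_or_gt_of_ne hne with hlt | hlt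
    · refine h (b - a) (by omega) (by omega) ?_
      rw [Nat.cast_sub hlt.le]
      exact sub_eq_zero.2 hab.symm
    · refine h (a - b) (by omega) (by omega) ?_
      rw [Nat.cast_sub hlt.le]
      exact sub_eq_zero.2 hab
  have h1 : ((Finset.range (n + 1)).image fun j : ℕ => (j : F i)).card = n + 1 := by
    rw [Finset.card_image_of_injOn hinj, Finset.card_range]
  have h2 := Finset.card_le_card (s := (Finset.range (n + 1)).image fun j : ℕ => (j : F i))
    (t := s) (fun y _ => hcon y)
  omega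

end Pool.Agent.Helper26.BSU
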